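import Pool.Agent.Helper94.BA.Sent

/-!
# Frechet and non-Frechet b-scales in one model: the sentence

Subsets of `ω` are given by predicates `x : ℕ → Prop`; they code functions (`fnLe`, `LeStar`).
The sentence is stated for an arbitrary third order structure `(ω, R, Q)`, where `R` is a set of
subsets of `ω` and `Q` a set of sets of subsets of `ω`.
-/

set_option autoImplicit false

namespace Pool.Agent.Helper32.FR

open Pool.Agent.Helper33.HM Pool.Agent.Helper94.BA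

/-! ## Plain definitions -/

/-- The node (finite sequence of natural numbers) with number `n`. -/
def nd (n : ℕ) : List ℕ := Denumerable.ofNat (List ℕ) n

/-- The weight of a node. -/
def wt (s : List ℕ) : ℕ := s.length + s.sum

/-- The value at `m` of the function coded by `x` is `j`. -/
def valEq (x : ℕ → Prop) (m j : ℕ) : Prop := fnLe x m j ∧ ∀ i, i < j → ¬ fnLe x m i

/-- The function coded by `x` is strictly increasing. -/
def Inc (x : ℕ → Prop) : Prop := ∀ m k, fnLe x (m + 1) k → ∃ i, i < k ∧ fnLe x m i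

/-- The node `t` belongs to the tree `U(f)`, where `f(s) = φ(wt s)` and `x` codes `φ`. -/
def Ok (t : List ℕ) (x : ℕ → Prop) : Prop :=
  ∀ (i : ℕ) (h : i < t.length), ¬ valEq x (wt (t.take i)) t[i]

/-- The part of the node `s` from the length of `t` on avoids `f`, where `f(s) = φ(wt s)` and
`x` codes `φ`. -/
def Av (t : List ℕ) (x : ℕ → Prop) (s : List ℕ) : Prop :=
  ∀ (i : ℕ) (h : i < s.length), t.length ≤ i → ¬ valEq x (wt (s.take i)) s[i]

/-- The node `s` extends `t ++ [j]` for some `j ≥ k`. -/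
def PN (t : List ℕ) (k : ℕ) (s : List ℕ) : Prop := ∃ j u, k ≤ j ∧ s = t ++ (j :: u)

/-- The `i`-th set coded by `r`. -/
def sec (r : ℕ → Prop) (i : ℕ) : ℕ → Prop := fun n => r (Nat.pair i n)

/-- The set of all `n` such that the pair of `n` and `y` belongs to `C`. -/
def wit (C : Set (ℕ → Prop)) (y : ℕ → Prop) : ℕ → Prop := fun n => sh n y ∈ C

/-- The first part of the sentence: there is a set `E` of codes of strictly increasing functions
which is well-ordered by eventual domination and dominating, with proper initial segments over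
which all families of functions are bounded, with arbitrarily large values at `0`, and such that
every set `A` of nodes which accumulates at a node `t` with respect to a proper initial segment of
`E` has an infinite subset which converges to `t` with respect to this initial segment. -/
def SentA (R : Set (ℕ → Prop)) (Q : Set (Set (ℕ → Prop))) : Prop :=
  ∃ E ∈ Q, E ⊆ R ∧ (∀ x ∈ E, Inc x) ∧
    (∀ x ∈ E, ∀ y ∈ E, LeStar x y ∨ LeStar y x) ∧
    (∀ x ∈ E, ∀ y ∈ E, LeStar x y → LeStar y x → x = y) ∧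
    (∀ r ∈ R, (∀ i, sec r i ∈ E) → ∃ i, LeStar (sec r i) (sec r (i + 1))) ∧
    (∀ C ∈ Q, ∀ x ∈ E, ∃ g ∈ R, ∀ y ∈ E, ¬ LeStar x y → LeStar (wit C y) g) ∧
    (∀ g ∈ R, ∃ x ∈ E, LeStar g x) ∧
    (∀ n, ∀ x ∈ E, ∃ y ∈ E, LeStar x y ∧ ¬ fnLe y 0 n) ∧
    ∀ x ∈ E, ∀ A ∈ R, ∀ t : List ℕ,
      (∀ r ∈ R, (∀ i, sec r i ∈ E) → ∀ m k, ∃ n, A n ∧ PN t k (nd n) ∧
        ∀ i, i < m → ¬ LeStar x (sec r i) → Ok t (sec r i) → Av t (sec r i) (nd n)) →
      ∃ Z ∈ R, ¬ Fin' Z ∧ (∀ n, Z n → A n) ∧ (∀ k, Fin' fun n => Z n ∧ ¬ PN t k (nd n)) ∧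
        ∀ y ∈ E, ¬ LeStar x y → Ok t y → Fin' fun n => Z n ∧ ¬ Av t y (nd n)

/-- The second part of the sentence: there is a chain `T` of infinite sets without an infinite
pseudo-intersection, over which all families of functions are bounded. -/
def SentB (R : Set (ℕ → Prop)) (Q : Set (Set (ℕ → Prop))) : Prop :=
  ∃ T ∈ Q, T ⊆ R ∧ (∀ a ∈ T, ¬ Fin' a) ∧
    (∀ a ∈ T, ∀ b ∈ T, (Fin' fun n => a n ∧ ¬ b n) ∨ Fin' fun n => b n ∧ ¬ a n) ∧
    (∀ Z ∈ R, ¬ Fin' Z → ∃ a ∈ T, ¬ Fin' fun n => Z n ∧ ¬ a n) ∧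
    ∀ C ∈ Q, ∃ g ∈ R, ∀ y ∈ T, LeStar (wit C y) g

/-- The sentence. -/
def Sentence (R : Set (ℕ → Prop)) (Q : Set (Set (ℕ → Prop))) : Prop := SentA R Q ∧ SentB R Q

/-! ## Boolean values -/

section Val

universe u

variable {B : Type u} [CompleteBooleanAlgebra B]

/-- The value of: the function coded by `x` has the value `j` at `m`. -/
def valV (x : ℕ → B) (m j : ℕ) : B := eqN (decV x m) j

/-- The value of: the function coded by `x` is strictly increasing. -/
def incV (x : ℕ → B) : B :=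
  ⨅ m : ℕ, ⨅ k : ℕ, decV x (m + 1) k ⇨ ⨆ i : ℕ, ⨆ _ : i < k, decV x m i

/-- The value of `LeStar x y`. -/
def lsV (x y : ℕ → B) : B := leStar (decV x) (decV y)

/-- The value of `Ok t x`. -/
def okV (t : List ℕ) (x : ℕ → B) : B :=
  ⨅ i : ℕ, ⨅ h : i < t.length, (valV x (wt (t.take i)) t[i])ᶜ

/-- The value of `Av t x s`. -/
def avV (t : List ℕ) (x : ℕ → B) (s : List ℕ) : B :=
  ⨅ i : ℕ, ⨅ h : i < s.length, ⨅ _ : t.length ≤ i, (valV x (wt (s.take i)) s[i])ᶜ

/-- The value of: some node `s ∈ A` extends `t ++ [j]` for some `j ≥ k`, and avoids the functions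
coded by `X 0, …, X (m - 1)`. -/
def accS (X : ℕ → ℕ → B) (m : ℕ) (A : ℕ → B) (t : List ℕ) (k : ℕ) : B :=
  ⨆ n : ℕ, ⨆ _ : PN t k (nd n),
    A n ⊓ ⨅ i : ℕ, ⨅ _ : i < m, (okV t (X i) ⇨ avV t (X i) (nd n))

/-- The value of: `A` accumulates at `t` with respect to the functions with indices less
than `γ`. -/
def accV (c : Ordinal.{0} → ℕ → B) (γ : Ordinal.{0}) (A : ℕ → B) (t : List ℕ) : B :=
  ⨅ l : ℕ → Ordinal.{0}, ⨅ m : ℕ, ⨅ _ : ∀ i, i < m → l i < γ, ⨅ k : ℕ,
    accS (fun i => c (l i)) m A t k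

/-- The value of: `Z` is infinite and converges to `t` with respect to the functions with indices
less than `γ`. -/
def convV (c : Ordinal.{0} → ℕ → B) (γ : Ordinal.{0}) (t : List ℕ) (Z : ℕ → B) : B :=
  (finV Z)ᶜ ⊓ (⨅ k : ℕ, finV fun n => ⨆ _ : ¬ PN t k (nd n), Z n) ⊓
    ⨅ β : Ordinal.{0}, ⨅ _ : β < γ, okV t (c β) ⇨ finV fun n => Z n ⊓ (avV t (c β) (nd n))ᶜ

/-- The value of: `Z` is a subset of `A` which converges to `t` (if `A` accumulates at `t`). -/
def piV (c : Ordinal.{0} → ℕ → B) (γ : Ordinal.{0}) (A : ℕ → B) (t : List ℕ) (Z : ℕ → B) : B :=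
  (⨅ n : ℕ, Z n ⇨ A n) ⊓ (accV c γ A t ⇨ convV c γ t Z)

end Val

universe u

/-- The sequence `c` of codes of functions is a dominating scale. -/
structure Scale {B : Type u} [CompleteBooleanAlgebra B] (c : Ordinal.{0} → ℕ → B) : Prop where
  inc : ∀ β, incV (c β) = ⊤
  mono : ∀ β γ, β < γ → lsV (c β) (c γ) = ⊤
  strict : ∀ β γ, β < γ → lsV (c γ) (c β) = ⊥
  root : ∀ β n, ∃ γ, β ≤ γ ∧ decV (c γ) 0 n = ⊥
  dom : ∀ g : ℕ → B, ⨆ β, lsV g (c β) = ⊤

/-- Small families of functions are bounded. -/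
def Bdg (B : Type u) [CompleteBooleanAlgebra B] : Prop :=
  ∀ (ι : Type) (g : ι → ℕ → B), ∃ G : ℕ → B, ∀ i, lsV (g i) G = ⊤

/-- `br` is (a name for) a set of indices such that the sets `a x`, `x ∈ br`, form a chain of
infinite sets without an infinite pseudo-intersection. -/
structure Tower {B : Type u} [CompleteBooleanAlgebra B] (Ω : Type) (a : Ω → ℕ → B)
    (br : Ω → B) : Prop where
  inf : ∀ x, finV (a x) = ⊥
  chain : ∀ x y, br x ⊓ br y ≤ finV (a x ⊓ (a y)ᶜ) ⊔ finV (a y ⊓ (a x)ᶜ)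
  max : ∀ Z : ℕ → B, (finV Z)ᶜ ≤ ⨆ x, br x ⊓ (finV (Z ⊓ (a x)ᶜ))ᶜ

/-- The sentence holds in `B`. -/
def Holds (B : Type u) [CompleteBooleanAlgebra B] : Prop :=
  (∃ c : Ordinal.{0} → ℕ → B, Scale c ∧ ∀ γ A t, ⨆ Z : ℕ → B, piV c γ A t Z = ⊤) ∧
    Bdg B ∧ ∃ (Ω : Type) (a : Ω → ℕ → B) (br : Ω → B), Tower Ω a br

end Pool.Agent.Helper32.FR
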