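import Pool.Agent.Helper94.BA.Node
import Pool.Agent.Helper29.BA.ACDef
import Pool.Agent.Helper32.FR.Sent

/-!
# Project FR: the posets and the iteration

* `TC Ω`: finite approximations to a tree order on `Ω` and to a sequence of sets `a x`, `x ∈ Ω`,
  which decreases modulo finite along the tree order, and such that incomparable elements give
  almost disjoint sets.
* `TM Ω`: the same with a finite chain of the tree order (approximation to a branch).
* `FT F ℓ`: the final poset, a condition of the iteration together with a finite chain.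
* `StepF`: the iteration adds, for every small family of sets which generates a proper ideal, a set
  which is almost disjoint from all members of the family.
-/

set_option autoImplicit false
set_option linter.unusedSectionVars false

namespace Pool.Agent.Helper32.FR

open Pool.Agent.Helper33.HM Pool.Agent.Helper94.BA

universe u

/-! ## The base poset -/

/-- Finite approximations. (Only the values of `R` on `d` and of `a` on `d × n` matter.) -/
structure TC (Ω : Type) [LinearOrder Ω] where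
  d : Finset Ω
  R : Ω → Ω → Prop
  n : ℕ
  a : Ω → ℕ → Prop
  lt : ∀ x ∈ d, ∀ y ∈ d, R x y → x < y
  trans : ∀ x ∈ d, ∀ y ∈ d, ∀ z ∈ d, R x y → R y z → R x z
  tree : ∀ x ∈ d, ∀ y ∈ d, ∀ z ∈ d, R x z → R y z → x = y ∨ R x y ∨ R y x

section TC

variable {Ω : Type} [LinearOrder Ω]

/-- Comparability. -/
def TC.Cmp (p : TC Ω) (x y : Ω) : Prop := x = y ∨ p.R x y ∨ p.R y x

/-- `c` is a chain of `p`. -/
def TC.Chn (p : TC Ω) (c : Finset Ω) : Prop := c ⊆ p.d ∧ ∀ x ∈ c, ∀ y ∈ c, p.Cmp x y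

/-- `p` is stronger than `q`. -/
def TC.Le (p q : TC Ω) : Prop :=
  q.d ⊆ p.d ∧ q.n ≤ p.n ∧ (∀ x ∈ q.d, ∀ y ∈ q.d, (p.R x y ↔ q.R x y)) ∧
    (∀ x ∈ q.d, ∀ k, k < q.n → (p.a x k ↔ q.a x k)) ∧
    ∀ x ∈ q.d, ∀ y ∈ q.d, ∀ k, q.n ≤ k → k < p.n →
      (q.R x y → p.a y k → p.a x k) ∧ (¬ q.Cmp x y → ¬ (p.a x k ∧ p.a y k))

theorem TC.Le.trans {p q r : TC Ω} (h1 : TC.Le p q) (h2 : TC.Le q r) : TC.Le p r := by
  obtain ⟨a1, a2, a3, a4, a5⟩ := h1
  obtain ⟨b1, b2, b3, b4, b5⟩ := h2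
  refine ⟨b1.trans a1, b2.trans a2, fun x hx y hy => (a3 x (b1 hx) y (b1 hy)).trans (b3 x hx y hy),
    fun x hx k hk => (a4 x (b1 hx) k (hk.trans_le b2)).trans (b4 x hx k hk), ?_⟩
  intro x hx y hy k hk hk'
  have e1 : q.R x y ↔ r.R x y := b3 x hx y hy
  have e2 : q.R y x ↔ r.R y x := b3 y hy x hx
  have e3 : q.Cmp x y ↔ r.Cmp x y := by
    unfold TC.Cmp
    rw [e1, e2]
  rcases lt_or_ge k q.n with h | h
  · rw [a4 x (b1 hx) k h, a4 y (b1 hy) k h]
    exact b5 x hx y hy k hk h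
  · have := a5 x (b1 hx) y (b1 hy) k h hk'
    rw [e1, e3] at this
    exact this

instance : Preorder (TC Ω) where
  le := TC.Le
  le_refl p := ⟨subset_rfl, le_rfl, fun _ _ _ _ => Iff.rfl, fun _ _ _ _ => Iff.rfl,
    fun _ _ _ _ _ h h' => absurd h' (not_lt.2 h)⟩
  le_trans _ _ _ := TC.Le.trans

theorem TC.le_def {p q : TC Ω} : p ≤ q ↔ TC.Le p q := Iff.rfl

instance : OrderTop (TC Ω) where
  top := ⟨∅, fun _ _ => False, 0, fun _ _ => False, by simp, by simp, by simp⟩
  le_top p := ⟨Finset.empty_subset _, Nat.zero_le _, fun x hx => absurd hx (Finset.notMem_empty x),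
    fun x hx => absurd hx (Finset.notMem_empty x), fun x hx => absurd hx (Finset.notMem_empty x)⟩

/-- Finite approximations with a finite chain. -/
def TM (Ω : Type) [LinearOrder Ω] : Type := {w : TC Ω × Finset Ω // w.1.Chn w.2}

instance : Preorder (TM Ω) where
  le v w := v.1.1 ≤ w.1.1 ∧ w.1.2 ⊆ v.1.2
  le_refl v := ⟨le_rfl, subset_rfl⟩
  le_trans u v w h1 h2 := ⟨h1.1.trans h2.1, h2.2.trans h1.2⟩

theorem TM.le_def {v w : TM Ω} : v ≤ w ↔ v.1.1 ≤ w.1.1 ∧ w.1.2 ⊆ v.1.2 := Iff.rfl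

/-- The properties of the index set: it is like the first uncountable ordinal. -/
structure OmOne (Ω : Type) [LinearOrder Ω] : Prop where
  seg : ∀ x : Ω, (Set.Iic x).Countable
  bdd : ∀ S : Set Ω, S.Countable → ∃ y, ∀ x ∈ S, x < y

/-- The base poset of the iteration. -/
abbrev PB (Ω : Type) [LinearOrder Ω] : Type 1 := ULift.{1} (TC Ω)

/-- The name of the set with index `x`. -/
def aN (x : Ω) (k : ℕ) : RO (PB Ω) := RO.gen {p | x ∈ p.down.d ∧ k < p.down.n ∧ p.down.a x k}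

end TC

/-! ## The final poset -/

section FT

variable {Ω : Type} [LinearOrder Ω] {I : Type 1} [LinearOrder I]

/-- The final poset. -/
def FT (F : I → Set (Name (PB Ω) I)) (ℓ : I) : Type 1 :=
  {w : Cnd F ℓ × Finset Ω // w.1.1.base.down.Chn w.2}

variable {F : I → Set (Name (PB Ω) I)} {ℓ : I}

instance : Preorder (FT F ℓ) where
  le v w := v.1.1 ≤ w.1.1 ∧ w.1.2 ⊆ v.1.2
  le_refl v := ⟨le_rfl, subset_rfl⟩
  le_trans u v w h1 h2 := ⟨h1.1.trans h2.1, h2.2.trans h1.2⟩

theorem FT.le_def {v w : FT F ℓ} : v ≤ w ↔ v.1.1 ≤ w.1.1 ∧ w.1.2 ⊆ v.1.2 := Iff.rfl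

instance : OrderTop (FT F ℓ) where
  top := ⟨(⟨Raw.nil ⟨⊤⟩, trivial, trivial⟩, ∅), Finset.empty_subset _,
    fun x hx => absurd hx (Finset.notMem_empty x)⟩
  le_top w := ⟨show w.1.1.1.base.down ≤ ⊤ from le_top, Finset.empty_subset _⟩

/-- The embedding of the algebra of the iteration. -/
def eN (U : RO (Cnd F ℓ)) : RO (FT F ℓ) := RO.gen {w | w.1.1 ∈ U}

/-- The name of the branch: the value of `x ∈ br`. -/
def brN (x : Ω) : RO (FT F ℓ) := RO.gen {w | x ∈ w.1.2}

/-- The name of the set with index `x`. -/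
def aT (x : Ω) (k : ℕ) : RO (FT F ℓ) := eN (baseE (aN x k))

end FT

/-! ## The iteration -/

/-- The index set of the iteration. -/
abbrev II : Type 1 := WithTop Ordinal.{0}

section Iter

variable {P₀ : Type 1} [Preorder P₀]

/-- Raw names with indices less than `i`. -/
def VN (G : II → Set (Name P₀ II)) (i : II) : Set (Name P₀ II) :=
  {Y | ∀ n k, (Y.1 n k).Valid G ∧ (Y.1 n k).lt i}

/-- The ideal generated by the sets named by elements of `S` and the finite sets. -/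
def JS (G : II → Set (Name P₀ II)) (i : II) (S : Set (Name P₀ II)) :
    Set (ℕ → RO (Cnd G i)) :=
  {y | ∃ (l : List (Name P₀ II)) (m : ℕ), (∀ Y ∈ l, Y ∈ S) ∧ y = usup (l.map valN) ⊔ finN m}

/-- All members of `J` are coinfinite. -/
def Prp {B : Type u} [CompleteBooleanAlgebra B] (J : Set (ℕ → B)) : Prop :=
  ∀ y ∈ J, ∀ m : ℕ, ⨆ n : ℕ, ⨆ _ : m ≤ n, (y n)ᶜ = ⊤

open Classical in
/-- The ideal used at `i`. -/
noncomputable def JJ (tk : II → Set (Name P₀ II)) (G : II → Set (Name P₀ II)) (i : II) :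
    Set (ℕ → RO (Cnd G i)) :=
  if Prp (JS G i (tk i ∩ VN G i)) then JS G i (tk i ∩ VN G i) else JS G i ∅

/-- The names used at `i`. -/
noncomputable def StepF (tk : II → Set (Name P₀ II)) (G : II → Set (Name P₀ II)) (i : II) :
    Set (Name P₀ II) := {Y | Y ∈ VN G i ∧ valN Y ∈ JJ tk G i}

/-- `tk` lists all small sets of names cofinally often. -/
def Lists (tk : II → Set (Name P₀ II)) : Prop :=
  ∀ (F : II → Set (Name P₀ II)) (ι : Type) (Y : ι → Name P₀ II), (∀ j, Y j ∈ VN F ⊤) →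
    ∀ α : Ordinal.{0}, ∃ α' : Ordinal.{0}, α ≤ α' ∧ tk (α' : II) = Set.range Y

end Iter

/-! ## Abstract properties of the algebras -/

/-- Small families of sets whose finite unions are coinfinite have an almost disjoint infinite
set. -/
def PP (B : Type u) [CompleteBooleanAlgebra B] : Prop :=
  ∀ (ι : Type) (y : ι → ℕ → B),
    (∀ (s : Finset ι) (m : ℕ), ⨆ n : ℕ, ⨆ _ : m ≤ n, ⨅ j : ι, ⨅ _ : j ∈ s, (y j n)ᶜ = ⊤) →
      ∃ z : ℕ → B, finV z = ⊥ ∧ ∀ j, finV (z ⊓ y j) = ⊤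

/-- The extension `e` adds no new sets of natural numbers. -/
def NoNew {A B : Type u} [CompleteBooleanAlgebra A] [CompleteBooleanAlgebra B] (e : A → B) :
    Prop :=
  ∀ b : B, b ≠ ⊥ → ∀ g : ℕ → B, ∃ c, c ≤ b ∧ c ≠ ⊥ ∧ ∃ g' : ℕ → A, ∀ n, c ≤ iffV (g n) (e (g' n))

end Pool.Agent.Helper32.FR
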