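import Pool.Agent.Helper88.FR.PscaleOf
import Pool.Agent.Helper97.FR.Frechet
import Pool.Agent.Helper97.FR.PltB

/-!
# Project FR: the ZFC part
-/

set_option autoImplicit false

namespace Pool.Agent.Helper32.FR

open Set
open Pool.Agent.Results.MP_743798_lc.NonFrechetBelowB (Node bnum pnum IsBScale U dow I)

/-- The family `B` of functions on the tree is unbounded on every infinite set of nodes. -/
def Robust (B : Set (Node → ℕ)) : Prop :=
  ∀ E : Set Node, E.Infinite → ∀ g : Node → ℕ, ∃ f ∈ B, ¬ {s ∈ E | ¬ f s ≤ g s}.Finite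

/-- The ZFC part. -/
theorem zfc_main (h : Sentence univ univ) :
    (∃ B : Set (Node → ℕ), IsBScale B ∧ Robust B ∧ @FrechetUrysohnSpace Node (dow B)) ∧
    ∃ B : Set (Node → ℕ), IsBScale B ∧ Robust B ∧ ¬ @FrechetUrysohnSpace Node (dow B) := by
  obtain ⟨φ, hφ⟩ := exists_pscale h.1
  exact ⟨frechet_of_pscale hφ,
    Pool.Agent.Results.MP_743798_lc.NonFrechetBelowB.result (pnum_lt_bnum h.2)⟩

end Pool.Agent.Helper32.FR
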