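import Pool.Agent.Helper32.FR.Ctm
import Pool.Agent.Helper32.FR.Zfc

/-!
# A Frechet b-scale and a non-Frechet b-scale in one model of ZFC

The sentence `Sentence univ univ` implies that there are a Frechet `b`-scale and a `b`-scale which
is not Frechet, and it is true in a countable transitive model of ZFC.
-/

set_option autoImplicit false

namespace Pool.Agent.Helper32.FR

open Set
open Pool.Agent.Helper32.HB (IsTransModelZFC realsP setsP)
open Pool.Agent.Results.MP_743798_lc.NonFrechetBelowB (Node IsBScale dow)

/-- **Positive answer to Q1.** If the sentence `Sentence univ univ` is true then there are a Frechet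
`b`-scale and a `b`-scale which is not Frechet (both unbounded on every infinite set of nodes); and
the sentence is true in a countable transitive model `M` of ZFC: for points and sets of points
which are elements of `M`. -/
theorem bothKinds :
    (Sentence univ univ →
      (∃ B : Set (Node → ℕ), IsBScale B ∧ Robust B ∧ @FrechetUrysohnSpace Node (dow B)) ∧
      ∃ B : Set (Node → ℕ), IsBScale B ∧ Robust B ∧ ¬ @FrechetUrysohnSpace Node (dow B)) ∧
    ∃ M : Set ZFSet.{0}, M.Countable ∧ IsTransModelZFC M ∧ Sentence (realsP M) (setsP M) :=
  ⟨zfc_main, exists_ctm⟩

end Pool.Agent.Helper32.FR
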