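import Pool.Agent.Helper45.FR.Emb
import Pool.Agent.Helper69.FR.Add
import Pool.Agent.Helper69.FR.TmAc
import Pool.Agent.Helper10.FR.FtAc
import Pool.Agent.Helper3.BA.Enum

/-! # FR-B3: the branch adds no new sets of natural numbers -/

set_option autoImplicit false
set_option linter.unusedSectionVars false

namespace Pool.Agent.Helper32.FR

open Pool.Agent.Helper33.HM Pool.Agent.Helper94.BA

variable {Ω : Type} [LinearOrder Ω] {I : Type 1} [LinearOrder I]
variable {F : I → Set (Name (PB Ω) I)} {ℓ : I}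

theorem nn_mem_gen_self {P : Type*} [Preorder P] {A : Set P} {p : P} (h : p ∈ A) :
    p ∈ RO.gen A := RO.mem_gen.2 fun q hq => ⟨q, le_rfl, p, h, hq⟩

theorem ft_noNew (h : OmOne Ω) : NoNew (eN : RO (Cnd F ℓ) → RO (FT F ℓ)) := by
  classical
  intro b hb g
  obtain ⟨w₀, hw₀⟩ := RO.ne_bot_iff.1 hb
  choose K hKc hK using fun n => h3_exists_gen (h10_ft_ac (tm_ac h) : AC (FT F ℓ)) (g n)
  let S : Set Ω := (⋃ n, ⋃ k ∈ K n, (↑k.1.2 : Set Ω)) ∪ ↑w₀.1.1.1.base.down.d
  have hS : S.Countable := by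
    refine Set.Countable.union ?_ (Finset.countable_toSet _)
    exact Set.countable_iUnion fun n => (hKc n).biUnion fun k _ => Finset.countable_toSet _
  obtain ⟨y, hy⟩ := h.bdd S hS
  have hyK : ∀ n, ∀ k ∈ K n, ∀ x ∈ k.1.2, x < y := by
    intro n k hk x hx
    refine hy x (Or.inl (Set.mem_iUnion.2 ⟨n, Set.mem_iUnion₂.2 ⟨k, hk, ?_⟩⟩))
    exact Finset.mem_coe.2 hx
  obtain ⟨q₀, hq₀, hq₀d, hq₀c⟩ := exists_add w₀.1.1.1.base.down w₀.1.2 w₀.2 y
    fun x hx => hy x (Or.inr (Finset.mem_coe.2 hx))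
  obtain ⟨r, hr, hrb⟩ := exists_base w₀.1.1 (ULift.up q₀) hq₀
  have hrb' : r.1.base.down = q₀ := by rw [hrb]
  let w₁ : FT F ℓ := ⟨(r, insert y w₀.1.2), by rw [hrb']; exact hq₀c⟩
  have hw₁ : w₁ ≤ w₀ := FT.le_def.2 ⟨hr, Finset.subset_insert _ _⟩
  refine ⟨RO.gen {w₁}, ?_, ?_, fun n => RO.gen {q : Cnd F ℓ | ∃ k ∈ K n, q ≤ k.1.1 ∧
    y ∈ q.1.base.down.d ∧ ∀ x ∈ k.1.2, q.1.base.down.R x y}, fun n => ?_⟩
  · rw [RO.le_def]
    intro p hp
    refine RO.mem_reg fun q hq => ?_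
    obtain ⟨u, hu, a, ha, hua⟩ := RO.mem_gen.1 hp q hq
    rw [Set.mem_singleton_iff] at ha
    subst ha
    exact ⟨u, hu, RO.mem_lower (hua.trans hw₁) hw₀⟩
  · exact RO.ne_bot_iff.2 ⟨w₁, nn_mem_gen_self rfl⟩
  have key : ∀ w : FT F ℓ, w ≤ w₁ → (w ∈ g n ↔ w.1.1 ∈ RO.gen {q : Cnd F ℓ | ∃ k ∈ K n,
      q ≤ k.1.1 ∧ y ∈ q.1.base.down.d ∧ ∀ x ∈ k.1.2, q.1.base.down.R x y}) := by
    intro w hw
    have hyw : y ∈ w.1.2 := hw.2 (Finset.mem_insert_self _ _)
    constructor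
    · intro hg
      rw [RO.mem_gen]
      intro q hq
      obtain ⟨w', hw'1, hw'2, hw'3⟩ := h45_lift w q hq
      have h1 : w' ∈ g n := RO.mem_lower hw'1 hg
      rw [← hK n] at h1
      obtain ⟨v, hv, k, hk, hvk⟩ := RO.mem_gen.1 h1 w' le_rfl
      have hvq : v.1.1 ≤ q := by
        rw [← hw'2]
        exact hv.1
      refine ⟨v.1.1, hvq, v.1.1, ⟨k, hk, hvk.1, ?_, ?_⟩, le_rfl⟩
      · apply v.2.1
        apply hv.2
        rw [hw'3]
        exact hyw
      · intro x hx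
        have hyv : y ∈ v.1.2 := hv.2 (by rw [hw'3]; exact hyw)
        have hxv : x ∈ v.1.2 := hvk.2 hx
        have hxy := hyK n k hk x hx
        rcases v.2.2 x hxv y hyv with h1 | h1 | h1
        · exact absurd h1 hxy.ne
        · exact h1
        · exact absurd (v.1.1.1.base.down.lt y (v.2.1 hyv) x (v.2.1 hxv) h1) (not_lt.2 hxy.le)
    · intro hg
      refine RO.mem_reg fun v hv => ?_
      have h1 := RO.mem_lower hv.1 hg
      obtain ⟨q, hq, a, ⟨k, hk, hak, hya, hR⟩, hqa⟩ := RO.mem_gen.1 h1 v.1.1 le_rfl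
      have hqa' : q.1.base.down ≤ a.1.base.down := base_mono hqa
      have hqv' : q.1.base.down ≤ v.1.1.1.base.down := base_mono hq
      have hqk' : q.1.base.down ≤ k.1.1.1.base.down := base_mono (hqa.trans hak)
      have hqa2 := TC.le_def.1 hqa'
      have hkd : ∀ x ∈ k.1.2, x ∈ q.1.base.down.d := fun x hx =>
        (TC.le_def.1 hqk').1 (k.2.1 hx)
      have hRq : ∀ x ∈ k.1.2, q.1.base.down.R x y := by
        intro x hx
        have hxa : x ∈ a.1.base.down.d := by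
          have h2 : a.1.base.down ≤ k.1.1.1.base.down := base_mono hak
          exact (TC.le_def.1 h2).1 (k.2.1 hx)
        rw [hqa2.2.2.1 x hxa y hya]
        exact hR x hx
      have hyv : y ∈ v.1.2 := hv.2 hyw
      have hvC := h45_chn_mono hqv' v.2
      have hkC := h45_chn_mono hqk' k.2
      have hyq := hvC.1 hyv
      have hcmp : ∀ u ∈ v.1.2, ∀ x ∈ k.1.2, q.1.base.down.Cmp u x := by
        intro u hu x hx
        rcases hvC.2 u hu y hyv with h2 | h2 | h2
        · rw [h2]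
          exact Or.inr (Or.inr (hRq x hx))
        · exact q.1.base.down.tree u (hvC.1 hu) x (hkd x hx) y hyq h2 (hRq x hx)
        · exact Or.inr (Or.inr (q.1.base.down.trans x (hkd x hx) y hyq u (hvC.1 hu)
            (hRq x hx) h2))
      have hch : q.1.base.down.Chn (v.1.2 ∪ k.1.2) := by
        refine ⟨Finset.union_subset hvC.1 hkC.1, ?_⟩
        intro u hu x hx
        rcases Finset.mem_union.1 hu with hu | hu <;> rcases Finset.mem_union.1 hx with hx | hx
        · exact hvC.2 u hu x hx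
        · exact hcmp u hu x hx
        · rcases hcmp x hx u hu with h2 | h2 | h2
          · exact Or.inl h2.symm
          · exact Or.inr (Or.inr h2)
          · exact Or.inr (Or.inl h2)
        · exact hkC.2 u hu x hx
      refine ⟨⟨(q, v.1.2 ∪ k.1.2), hch⟩, FT.le_def.2 ⟨hq, Finset.subset_union_left⟩, ?_⟩
      have h3 : k ∈ g n := by
        rw [← hK n]
        exact nn_mem_gen_self hk
      exact RO.mem_lower (FT.le_def.2 ⟨hqa.trans hak, Finset.subset_union_right⟩) h3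
  rw [RO.le_def]
  intro p hp
  refine RO.mem_reg fun q hq => ?_
  obtain ⟨u, hu, a, ha, hua⟩ := RO.mem_gen.1 hp q hq
  rw [Set.mem_singleton_iff] at ha
  subst ha
  refine ⟨u, hu, ?_⟩
  unfold iffV
  rw [RO.mem_inf, RO.mem_himp, RO.mem_himp]
  refine ⟨fun v hv hvg => mem_eN.2 ((key v (hv.trans hua)).1 hvg),
    fun v hv hvg => (key v (hv.trans hua)).2 (mem_eN.1 hvg)⟩

end Pool.Agent.Helper32.FR
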