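import Pool.Agent.Helper32.FR.Tra
import Pool.Agent.Helper40.FR.OmOne
import Pool.Agent.Helper69.FR.TmAc
import Pool.Agent.Helper10.FR.FtAc
import Pool.Agent.Helper45.FR.Emb
import Pool.Agent.Helper32.FR.NoNew
import Pool.Agent.Helper93.FR.Tower
import Pool.Agent.Helper46.FR.Rec
import Pool.Agent.Helper71.FR.Lists
import Pool.Agent.Helper28.FR.PpIter
import Pool.Agent.Helper77.FR.Bdg
import Pool.Agent.Helper93.FR.Scale
import Pool.Agent.Helper5.FR.Pi
import Pool.Agent.Helper31.FR.ScaleMap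
import Pool.Agent.Helper58.FR.BdgMap
import Pool.Agent.Helper31.FR.PiMap
import Pool.Agent.Helper55.BA.ScaleH
import Pool.Agent.Helper3.BA.Enum
import Pool.Agent.Helper77.BA.Size

/-!
# The sentence is true in a countable transitive model of ZFC
-/

set_option autoImplicit false

namespace Pool.Agent.Helper32.FR

open Pool.Agent.Helper33.HM Pool.Agent.Helper94.BA

theorem exists_ctm : ∃ M : Set ZFSet.{0}, M.Countable ∧
    Pool.Agent.Helper32.HB.IsTransModelZFC M ∧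
      Sentence (Pool.Agent.Helper32.HB.realsP M) (Pool.Agent.Helper32.HB.setsP M) := by
  obtain ⟨Ω, _, hΩ⟩ := exists_omOne
  have h₀ : AC (PB Ω) := pb_ac hΩ
  have hP : Cardinal.mk (PB Ω) ≤ Cardinal.mk Ordinal.{0} := h77_mk_le_of_small _
  obtain ⟨tk, htk⟩ := exists_lists hP
  obtain ⟨F, hF⟩ := exists_rec (P₀ := PB Ω) (StepF tk)
  have hpp : PP (RO (Cnd F (⊤ : II))) := pp_iter h₀ ⟨⟨⊤⟩⟩ tk htk F hF
  have hb := bdg_of_pp hpp
  obtain ⟨c, hc⟩ := exists_scale hb (exists_enum (cnd_ac h₀) (mk_cnd' hP F ⊤))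
  have hcc : CCC (RO (FT F (⊤ : II))) := ro_ccc (h10_ft_ac (tm_ac hΩ))
  refine exists_model (P := FT F (⊤ : II)) ⟨⟨fun β n => eN (c β n),
    scale_map eN_ce (ft_noNew hΩ) hc, fun γ X t => ?_⟩, bdg_map eN_ce hcc (ft_noNew hΩ) hb,
    Ω, aT, brN, ft_tower hΩ⟩
  exact pi_map eN_ce (ft_noNew hΩ) (fun γ X t => exists_pi hpp c γ X t) γ X t

end Pool.Agent.Helper32.FR
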