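import Pool.Agent.Helper32.BA.Tra
import Pool.Agent.Helper32.FR.Sent

/-! # FR-V: generic filters respect the values of the sentence -/

set_option autoImplicit false
set_option linter.unusedSectionVars false

namespace Pool.Agent.Helper32.FR

open Set Filter Pool.Agent.Helper33.HM Pool.Agent.Helper33.HMG Pool.Agent.Helper32.HB
open Pool.Agent.Helper94.BA

universe u

variable {P : Type u} [Preorder P]

/-- The set of natural numbers with the name `x`, at the generic filter `G`. -/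
def gv (G : GF P) (x : ℕ → RO P) : ℕ → Prop := fun n => Fr G (x n)

theorem ev_valV (x : ℕ → RO P) (m j : ℕ) :
    h32_Ev (valV x m j) fun G => valEq (gv G x) m j :=
  h32_and (h32_ev_decV x m j)
    (h32_all fun i => h32_all fun _ => h32_not (h32_ev_decV x m i))

theorem ev_incV (x : ℕ → RO P) : h32_Ev (incV x) fun G => Inc (gv G x) := by
  refine h32_congr (h32_all fun m => h32_all fun k => h32_imp (h32_ev_decV x (m + 1) k)
    (h32_ex fun i => h32_ex fun _ : i < k => h32_ev_decV x m i)) fun G => ?_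
  unfold Inc
  simp only [exists_prop]
  rfl

theorem ev_lsV (x y : ℕ → RO P) : h32_Ev (lsV x y) fun G => LeStar (gv G x) (gv G y) :=
  h32_ev_leStar x y

theorem ev_okV (t : List ℕ) (x : ℕ → RO P) : h32_Ev (okV t x) fun G => Ok t (gv G x) :=
  h32_all fun _ => h32_all fun _ => h32_not (ev_valV x _ _)

theorem ev_avV (t : List ℕ) (x : ℕ → RO P) (s : List ℕ) :
    h32_Ev (avV t x s) fun G => Av t (gv G x) s :=
  h32_all fun _ => h32_all fun _ => h32_all fun _ => h32_not (ev_valV x _ _)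

theorem ev_accS (X : ℕ → ℕ → RO P) (m : ℕ) (A : ℕ → RO P) (t : List ℕ) (k : ℕ) :
    h32_Ev (accS X m A t k) fun G => ∃ n, gv G A n ∧ PN t k (nd n) ∧
      ∀ i, i < m → Ok t (gv G (X i)) → Av t (gv G (X i)) (nd n) := by
  refine h32_congr (h32_ex fun n => h32_ex fun _ : PN t k (nd n) =>
    h32_and (h32_self (A n)) (h32_all fun i => h32_all fun _ : i < m =>
      h32_imp (ev_okV t (X i)) (ev_avV t (X i) (nd n)))) fun G => ?_
  refine exists_congr fun n => ?_
  constructor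
  · rintro ⟨h1, h2, h3⟩
    exact ⟨h2, h1, h3⟩
  · rintro ⟨h1, h2, h3⟩
    exact ⟨h2, h1, h3⟩

theorem ev_sub (Z A : ℕ → RO P) :
    h32_Ev (⨅ n : ℕ, Z n ⇨ A n) fun G => ∀ n, gv G Z n → gv G A n :=
  h32_all fun _ => h32_imp (h32_self _) (h32_self _)

theorem ev_fin (Z : ℕ → RO P) : h32_Ev (finV Z) fun G => Fin' (gv G Z) :=
  h32_ev_finV fun _ => h32_self _

theorem ev_finPN (Z : ℕ → RO P) (t : List ℕ) (k : ℕ) :
    h32_Ev (finV fun n => ⨆ _ : ¬ PN t k (nd n), Z n) fun G =>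
      Fin' fun n => gv G Z n ∧ ¬ PN t k (nd n) := by
  refine h32_ev_finV (b := fun n G => gv G Z n ∧ ¬ PN t k (nd n)) fun n =>
    h32_congr (h32_ex fun _ : ¬ PN t k (nd n) => h32_self (Z n)) fun G => ?_
  constructor
  · rintro ⟨h1, h2⟩
    exact ⟨h2, h1⟩
  · rintro ⟨h1, h2⟩
    exact ⟨h2, h1⟩

theorem ev_finAv (Z : ℕ → RO P) (t : List ℕ) (y : ℕ → RO P) :
    h32_Ev (finV fun n => Z n ⊓ (avV t y (nd n))ᶜ) fun G =>
      Fin' fun n => gv G Z n ∧ ¬ Av t (gv G y) (nd n) :=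
  h32_ev_finV (b := fun n G => gv G Z n ∧ ¬ Av t (gv G y) (nd n)) fun n =>
    h32_and (h32_self _) (h32_not (ev_avV t y (nd n)))

theorem ev_finDiff (x y : ℕ → RO P) :
    h32_Ev (finV (x ⊓ yᶜ)) fun G => Fin' fun n => gv G x n ∧ ¬ gv G y n :=
  h32_ev_finV (b := fun n G => gv G x n ∧ ¬ gv G y n) fun _ =>
    h32_and (h32_self _) (h32_not (h32_self _))

end Pool.Agent.Helper32.FR
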