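import Pool.Agent.Helper32.FR.Sent
import Pool.Agent.Helper50.Dow.Ground

/-! # Project FR: scales with the relative pseudo-intersection property -/

set_option autoImplicit false

namespace Pool.Agent.Helper32.FR

open Set
open Pool.Agent.Results.MP_743798_lc.NonFrechetBelowB (Node bnum pnum IsBScale U dow I)

/-- The scale `φ` consists of strictly increasing functions, is dominating, and has the relative
pseudo-intersection property. -/
structure PScale (φ : I → ℕ → ℕ) : Prop where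
  mono : ∀ x, StrictMono (φ x)
  le_iff : ∀ x y, x ≤ y ↔ {k | ¬ φ x k ≤ φ y k}.Finite
  dom : ∀ g : ℕ → ℕ, ∃ x, {k | ¬ g k ≤ φ x k}.Finite
  root : ∀ (n : ℕ) (x : I), ∃ y, x ≤ y ∧ n < φ y 0
  pi : ∀ (γ : I) (A : Set Node) (t : Node),
    (∀ F : Finset I, (∀ x ∈ F, x < γ) → ∀ K : ℕ, ∃ j v, K ≤ j ∧ t ++ j :: v ∈ A ∧
      ∀ x ∈ F, t ∈ U (fun s => φ x (wt s)) → t ++ j :: v ∈ U (fun s => φ x (wt s))) →
    ∃ Z : Set Node, Z.Infinite ∧ Z ⊆ A ∧
      (∀ k : ℕ, {s ∈ Z | ¬ ∃ j v, k ≤ j ∧ s = t ++ j :: v}.Finite) ∧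
      ∀ x, x < γ → t ∈ U (fun s => φ x (wt s)) → {s ∈ Z | s ∉ U (fun s => φ x (wt s))}.Finite

end Pool.Agent.Helper32.FR
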