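import Pool.Agent.Helper32.FR.Defs
import Pool.Agent.Helper33.HM.Basic
import Pool.Agent.Helper84.BA.Pt
import Pool.Agent.Helper54.BA.CEcalc
import Pool.Agent.Helper46.BA.FinCalc
import Pool.Agent.Helper6.BA.Succ
import Pool.Agent.Helper64.BA.Encode
import Pool.Agent.Helper77.BA.Size
import Pool.Agent.Helper3.BA.Enum
import Pool.Agent.Helper29.BA.CndCCC
import Pool.Agent.Helper55.BA.ScaleH
import Pool.Agent.Helper32.HB.NmB

/-! # Project FR: the statements of the modules (stubs) -/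

set_option autoImplicit false
set_option linter.unusedSectionVars false

namespace Pool.Agent.Helper32.FR

open Pool.Agent.Helper33.HM Pool.Agent.Helper94.BA

universe u

/-! ## A: the base poset -/

section A

variable {Ω : Type} [LinearOrder Ω]

/-- FR-A1: amalgamation. -/
theorem amalg (p q : TC Ω) (cp cq D : Finset Ω) (hp : p.Chn cp) (hq : q.Chn cq)
    (hD : ∀ x, x ∈ D ↔ x ∈ p.d ∧ x ∈ q.d) (hn : p.n = q.n)
    (hR : ∀ x ∈ D, ∀ y ∈ D, (p.R x y ↔ q.R x y))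
    (ha : ∀ x ∈ D, ∀ k, k < p.n → (p.a x k ↔ q.a x k))
    (hc : ∀ x ∈ D, ((∃ u ∈ cp, x = u ∨ p.R x u) ↔ ∃ u ∈ cq, x = u ∨ q.R x u))
    (hDp : ∀ x ∈ D, ∀ y ∈ p.d, y ∉ D → x < y) (hpq : ∀ x ∈ p.d, ∀ y ∈ q.d, y ∉ D → x < y) :
    ∃ r : TC Ω, r ≤ p ∧ r ≤ q ∧ r.Chn (cp ∪ cq) := sorry

/-- FR-A2: the countable chain condition. -/
theorem tm_ac (h : OmOne Ω) : AC (TM Ω) := sorry

theorem pb_ac (h : OmOne Ω) : AC (PB Ω) := sorry

/-- FR-A3: existence of the index set. -/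
theorem exists_omOne : ∃ (Ω : Type) (_ : LinearOrder Ω), OmOne Ω := sorry

/-- FR-A4: the names. -/
theorem aN_dec {p : PB Ω} {x y : Ω} (hx : x ∈ p.down.d) (hy : y ∈ p.down.d)
    (h : p.down.R x y) : p ∈ finV ((aN y : ℕ → RO (PB Ω)) ⊓ (aN x)ᶜ) := sorry

theorem aN_ad {p : PB Ω} {x y : Ω} (hx : x ∈ p.down.d) (hy : y ∈ p.down.d)
    (h : ¬ p.down.Cmp x y) : p ∈ finV ((aN x : ℕ → RO (PB Ω)) ⊓ aN y) := sorry

theorem aN_inf (x : Ω) : finV (aN x : ℕ → RO (PB Ω)) = ⊥ := sorry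

/-- FR-A5: new nodes above a chain. -/
theorem exists_add (p : TC Ω) (c : Finset Ω) (hc : p.Chn c) (y : Ω) (hy : ∀ x ∈ p.d, x < y) :
    ∃ q : TC Ω, q ≤ p ∧ q.d = insert y p.d ∧ q.Chn (insert y c) := sorry

theorem exists_add_two (p : TC Ω) (c : Finset Ω) (hc : p.Chn c) (y z : Ω)
    (hy : ∀ x ∈ p.d, x < y) (hz : ∀ x ∈ p.d, x < z) (hyz : y ≠ z) :
    ∃ q : TC Ω, q ≤ p ∧ q.Chn (insert y c) ∧ q.Chn (insert z c) ∧ ¬ q.Cmp y z := sorry

end A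

/-! ## B: the final poset -/

section B

variable {Ω : Type} [LinearOrder Ω] {I : Type 1} [LinearOrder I]
variable {F : I → Set (Name (PB Ω) I)} {ℓ : I}

/-- FR-B1: the embedding. -/
theorem mem_eN {U : RO (Cnd F ℓ)} {w : FT F ℓ} : w ∈ eN U ↔ w.1.1 ∈ U := sorry

theorem eN_ce : CE (eN : RO (Cnd F ℓ) → RO (FT F ℓ)) := sorry

theorem mem_brN {x : Ω} {w : FT F ℓ} : w ∈ (brN x : RO (FT F ℓ)) ↔
    ∀ v, v ≤ w → ∃ u : FT F ℓ, u ≤ v ∧ x ∈ u.1.2 := sorry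

/-- FR-B2: the countable chain condition. -/
theorem ft_ac (h : OmOne Ω) : AC (FT F ℓ) := sorry

/-- FR-B3: no new sets of natural numbers. -/
theorem ft_noNew (h : OmOne Ω) : NoNew (eN : RO (Cnd F ℓ) → RO (FT F ℓ)) := sorry

/-- FR-B4: the tower. -/
theorem ft_tower (h : OmOne Ω) :
    Tower Ω (aT : Ω → ℕ → RO (FT F ℓ)) (brN : Ω → RO (FT F ℓ)) := sorry

end B

/-! ## C: the iteration -/

/-- FR-C1: the recursion. -/
theorem exists_rec {P₀ I : Type u} [Preorder P₀] [LinearOrder I] [WellFoundedLT I]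
    (Step : (I → Set (Name P₀ I)) → I → Set (Name P₀ I)) :
    ∃ F : I → Set (Name P₀ I), ∀ i, F i = Step (restr F i) i := sorry

section C

variable {P₀ : Type 1} [Preorder P₀]

open Cardinal in
/-- FR-C2: sizes. -/
theorem mk_cnd' (hP : #P₀ ≤ #Ordinal.{0}) (F : II → Set (Name P₀ II)) (ℓ : II) :
    #(Cnd F ℓ) ≤ #Ordinal.{0} := sorry

open Cardinal in
theorem exists_lists (hP : #P₀ ≤ #Ordinal.{0}) :
    ∃ tk : II → Set (Name P₀ II), Lists tk := sorry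

/-- FR-C3: the Mathias step. -/
theorem mstep_inf {A B : Type u} [CompleteBooleanAlgebra A] [CompleteBooleanAlgebra B]
    {e : A → B} (he : CE e) {J : Set (ℕ → A)} {z : ℕ → B} (hz : MStep e J z) (hp : Prp J)
    (hs : ∀ x ∈ J, ∀ y ∈ J, x ⊔ y ∈ J) (hf : ∀ m, finN m ∈ J) : finV z = ⊥ := sorry

theorem mstep_fin {A B : Type u} [CompleteBooleanAlgebra A] [CompleteBooleanAlgebra B]
    {e : A → B} (he : CE e) {J : Set (ℕ → A)} {z : ℕ → B} (hz : MStep e J z) (hp : Prp J)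
    (hs : ∀ x ∈ J, ∀ y ∈ J, x ⊔ y ∈ J) (hf : ∀ m, finN m ∈ J) (y : ℕ → A) (hy : y ∈ J) :
    finV (z ⊓ fun n => e (y n)) = ⊤ := sorry

/-- FR-C4: names. -/
theorem exists_names {F : II → Set (Name P₀ II)} (h₀ : AC P₀) (hne : Nonempty P₀) {ι : Type}
    (y : ι → ℕ → RO (Cnd F (⊤ : II))) :
    ∃ (α : Ordinal.{0}) (Y : ι → Name P₀ II), ∀ j, Y j ∈ VN F (α : II) ∧ valN (Y j) = y j := sorry

/-- FR-C5: the iteration satisfies `PP`. -/
theorem pp_iter (h₀ : AC P₀) (hne : Nonempty P₀) (tk : II → Set (Name P₀ II)) (htk : Lists tk)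
    (F : II → Set (Name P₀ II)) (hF : ∀ i, F i = StepF tk (restr F i) i) :
    PP (RO (Cnd F (⊤ : II))) := sorry

end C

/-! ## D: consequences of `PP` -/

section D

/-- FR-D1 -/
theorem bdg_of_pp {B : Type u} [CompleteBooleanAlgebra B] (hp : PP B) : Bdg B := sorry

/-- FR-D2 -/
theorem exists_inc {B : Type u} [CompleteBooleanAlgebra B] (G : ℕ → B) (r : ℕ) :
    ∃ c : ℕ → B, incV c = ⊤ ∧ (∀ n k, decV c n k ≤ ⨆ i : ℕ, ⨆ _ : i < k, decV G n i) ∧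
      ∀ k, k < r → decV c 0 k = ⊥ := sorry

theorem exists_cofinal_nat : ∃ r : Ordinal.{0} → ℕ, ∀ (β : Ordinal.{0}) (n : ℕ),
    ∃ γ, β ≤ γ ∧ r γ = n := sorry

/-- FR-D3 -/
theorem exists_scale {B : Type 1} [CompleteBooleanAlgebra B] (hb : Bdg B)
    (hρ : ∃ ρ : Ordinal.{0} → (ℕ → B), Function.Surjective ρ) :
    ∃ c : Ordinal.{0} → ℕ → B, Scale c := sorry

/-- FR-D4 -/
theorem exists_pi {B : Type 1} [CompleteBooleanAlgebra B] (hp : PP B)
    (c : Ordinal.{0} → ℕ → B) (γ : Ordinal.{0}) (A : ℕ → B) (t : List ℕ) :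
    ∃ Z : ℕ → B, piV c γ A t Z = ⊤ := sorry

end D

/-! ## E: transfer to the final algebra -/

section E

variable {A B : Type 1} [CompleteBooleanAlgebra A] [CompleteBooleanAlgebra B] {e : A → B}

/-- FR-E1 -/
theorem scale_map (he : CE e) (hn : NoNew e) {c : Ordinal.{0} → ℕ → A} (hc : Scale c) :
    Scale fun β n => e (c β n) := sorry

/-- FR-E2 -/
theorem bdg_map (he : CE e) (hcc : CCC B) (hn : NoNew e) (hb : Bdg A) : Bdg B := sorry

/-- FR-E3 -/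
theorem pi_map (he : CE e) (hn : NoNew e) {c : Ordinal.{0} → ℕ → A}
    (h : ∀ γ X t, ∃ Z : ℕ → A, piV c γ X t Z = ⊤) (γ : Ordinal.{0}) (X : ℕ → B) (t : List ℕ) :
    ⨆ Z : ℕ → B, piV (fun β n => e (c β n)) γ X t Z = ⊤ := sorry

end E

/-! ## V: the transfer to a countable transitive model -/

/-- FR-V -/
theorem exists_model {P : Type 1} [Preorder P] [OrderTop P] (hP : Holds (RO P)) :
    ∃ M : Set ZFSet.{0}, M.Countable ∧ Pool.Agent.Helper32.HB.IsTransModelZFC M ∧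
      Sentence (Pool.Agent.Helper32.HB.realsP M) (Pool.Agent.Helper32.HB.setsP M) := sorry

/-! ## The assembly -/

theorem exists_ctm : ∃ M : Set ZFSet.{0}, M.Countable ∧
    Pool.Agent.Helper32.HB.IsTransModelZFC M ∧
      Sentence (Pool.Agent.Helper32.HB.realsP M) (Pool.Agent.Helper32.HB.setsP M) := by
  obtain ⟨Ω, _, hΩ⟩ := exists_omOne
  have h₀ : AC (PB Ω) := pb_ac hΩ
  have hP : Cardinal.mk (PB Ω) ≤ Cardinal.mk Ordinal.{0} := h77_mk_le_of_small _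
  obtain ⟨tk, htk⟩ := exists_lists hP
  obtain ⟨F, hF⟩ := exists_rec (P₀ := PB Ω) (StepF tk)
  have hpp : PP (RO (Cnd F (⊤ : II))) := pp_iter h₀ ⟨⟨⊤⟩⟩ tk htk F hF
  have hb := bdg_of_pp hpp
  obtain ⟨c, hc⟩ := exists_scale hb (exists_enum (cnd_ac h₀) (mk_cnd' hP F ⊤))
  have hcc : CCC (RO (FT F (⊤ : II))) := ro_ccc (ft_ac hΩ)
  refine exists_model (P := FT F (⊤ : II)) ⟨⟨fun β n => eN (c β n),
    scale_map eN_ce (ft_noNew hΩ) hc, fun γ X t => ?_⟩, bdg_map eN_ce hcc (ft_noNew hΩ) hb,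
    Ω, aT, brN, ft_tower hΩ⟩
  exact pi_map eN_ce (ft_noNew hΩ) (fun γ X t => exists_pi hpp c γ X t) γ X t

end Pool.Agent.Helper32.FR
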