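import Pool.Agent.Helper32.FR.Ev
import Pool.Agent.Helper32.HB.Cho
import Pool.Agent.Helper32.HB.Pnt
import Pool.Agent.Helper32.HB.Nam

/-! # FR-V: the transfer of the sentence to a countable transitive model -/

set_option autoImplicit false
set_option linter.unusedSectionVars false

namespace Pool.Agent.Helper32.FR

open Set Filter Pool.Agent.Helper33.HM Pool.Agent.Helper33.HMG Pool.Agent.Helper32.HB
open Pool.Agent.Helper94.BA

/-- The requirements of the generic sequence. -/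
inductive TrR : Type
  | setE | setT | wt | re | sh (s : ℕ) | sq (i : ℕ) | bdE | bdT | dom | root (n : ℕ)
  | acc (t : List ℕ) | pi (t : List ℕ) | mx
  deriving Countable

/-- The events which must hold at the generic point. -/
inductive TrE : Type
  | inc | ls | dec (n : ℕ) | ok (t : List ℕ) | acc (m : ℕ) (t : List ℕ) (k : ℕ) | sub | fin
  | pn (t : List ℕ) (k : ℕ) | av (t : List ℕ) | diff | ch
  deriving Countable

section Tra

variable {P : Type 1} [Preorder P] [OrderTop P]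

/-- The name of the scale. -/
def nE (c : Ordinal.{0} → ℕ → RO P) : Nm P := .mk Ordinal.{0} (fun β => nm (c β)) fun _ => ⊤

/-- The name of the tower. -/
def nT {Ω : Type} (a : Ω → ℕ → RO P) (br : Ω → RO P) : Nm P :=
  .mk {y : Ω × P // y.2 ∈ br y.1} (fun y => nm (a y.1.1)) fun y => y.1.2

/-- The name of `wit C y`. -/
def witV (γ : Nm P) (x : ℕ → RO P) (n : ℕ) : RO P := SE γ (shV n x)

/-- The requirements. -/
def TrW (c : Ordinal.{0} → ℕ → RO P) {Ω : Type} (a : Ω → ℕ → RO P) (br : Ω → RO P) :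
    TrR → (ℕ → Nm P) → P → Nm P → Prop
  | .setE, _, _, x => x = nE c
  | .setT, _, _, x => x = nT a br
  | .wt, v, _, x => x = nm (witV (v 0) (rl (v 1)))
  | .re, v, _, x => x = nm (rl (v 0))
  | .sh s, v, _, x => x = nm (shV s (rl (v 0)))
  | .sq i, v, _, x => x = nm (h32_sq (v 0) i)
  | .bdE, v, _, x => ∃ β, v 1 = nm (c β) ∧ ∃ G, x = nm G ∧ ∀ δ, δ < β →
      lsV (witV (v 0) (c δ)) G = ⊤
  | .bdT, v, _, x => ∃ G, x = nm G ∧ ∀ ω, lsV (witV (v 0) (a ω)) G = ⊤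
  | .dom, v, q, x => ∃ β, x = nm (c β) ∧ q ∈ lsV (rl (v 0)) (c β)
  | .root n, v, _, x => ∃ β γ, v 0 = nm (c β) ∧ β ≤ γ ∧ x = nm (c γ) ∧ decV (c γ) 0 n = ⊥
  | .acc t, v, q, x => ∃ β, ∃ l : ℕ → Ordinal.{0}, ∃ m k, v 0 = nm (c β) ∧
      (∀ i, i < m → l i < β) ∧ x = nm (h32_cq fun i => c (l i)) ∧
      q ∈ (accS (fun i => c (l i)) m (rl (v 1)) t k)ᶜ
  | .pi t, v, q, x => ∃ β Z, v 0 = nm (c β) ∧ x = nm Z ∧ q ∈ piV c β (rl (v 1)) t Z
  | .mx, v, q, x => ∃ ω, x = nm (a ω) ∧ q ∈ br ω ⊓ (finV (rl (v 0) ⊓ (a ω)ᶜ))ᶜ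

/-- The events. -/
def TrEs : TrE → (ℕ → Nm P) → Set (GF P)
  | .inc, v => {G | Fr G (incV (rl (v 0))) ↔ Inc (gv G (rl (v 0)))}
  | .ls, v => {G | Fr G (lsV (rl (v 0)) (rl (v 1))) ↔
      LeStar (gv G (rl (v 0))) (gv G (rl (v 1)))}
  | .dec n, v => {G | Fr G (decV (rl (v 0)) 0 n) ↔ fnLe (gv G (rl (v 0))) 0 n}
  | .ok t, v => {G | Fr G (okV t (rl (v 0))) ↔ Ok t (gv G (rl (v 0)))}
  | .acc m t k, v => {G | Fr G (accS (h32_sq (v 0)) m (rl (v 1)) t k) ↔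
      ∃ n, gv G (rl (v 1)) n ∧ PN t k (nd n) ∧
        ∀ i, i < m → Ok t (gv G (h32_sq (v 0) i)) → Av t (gv G (h32_sq (v 0) i)) (nd n)}
  | .sub, v => {G | Fr G (⨅ n : ℕ, rl (v 0) n ⇨ rl (v 1) n) ↔
      ∀ n, gv G (rl (v 0)) n → gv G (rl (v 1)) n}
  | .fin, v => {G | Fr G (finV (rl (v 0))) ↔ Fin' (gv G (rl (v 0)))}
  | .pn t k, v => {G | Fr G (finV fun n => ⨆ _ : ¬ PN t k (nd n), rl (v 0) n) ↔
      Fin' fun n => gv G (rl (v 0)) n ∧ ¬ PN t k (nd n)}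
  | .av t, v => {G | Fr G (finV fun n => rl (v 0) n ⊓ (avV t (rl (v 1)) (nd n))ᶜ) ↔
      Fin' fun n => gv G (rl (v 0)) n ∧ ¬ Av t (gv G (rl (v 1))) (nd n)}
  | .diff, v => {G | Fr G (finV (rl (v 0) ⊓ (rl (v 1))ᶜ)) ↔
      Fin' fun n => gv G (rl (v 0)) n ∧ ¬ gv G (rl (v 1)) n}
  | .ch, v => {G | Fr G (finV (rl (v 0) ⊓ (rl (v 1))ᶜ) ⊔ finV (rl (v 1) ⊓ (rl (v 0))ᶜ)) ↔
      (Fin' fun n => gv G (rl (v 0)) n ∧ ¬ gv G (rl (v 1)) n) ∨
        Fin' fun n => gv G (rl (v 1)) n ∧ ¬ gv G (rl (v 0)) n}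

theorem tr_ae (r : TrE) (v : ℕ → Nm P) : ∀ᶠ G in aeG P, G ∈ TrEs r v := by
  cases r with
  | inc => exact ev_incV _
  | ls => exact ev_lsV _ _
  | dec n => exact h32_ev_decV _ _ _
  | ok t => exact ev_okV _ _
  | acc m t k => exact ev_accS _ _ _ _ _
  | sub => exact ev_sub _ _
  | fin => exact ev_fin _
  | pn t k => exact ev_finPN _ _ _
  | av t => exact ev_finAv _ _ _
  | diff => exact ev_finDiff _ _
  | ch => exact h32_or (ev_finDiff _ _) (ev_finDiff _ _)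

end Tra

section Main

variable {P : Type 1} [Preorder P] [OrderTop P]

theorem tr_not_bot (G : GF P) : ¬ Fr G (⊥ : RO P) := by
  rintro ⟨p, -, hp⟩
  exact RO.not_mem_bot p hp

/-- If the sentence holds in the algebra of regular open subsets of `P`, then it holds in a
countable transitive model of ZFC. -/
theorem exists_model (hP : Holds (RO P)) :
    ∃ M : Set ZFSet.{0}, M.Countable ∧ Pool.Agent.Helper32.HB.IsTransModelZFC M ∧
      Sentence (Pool.Agent.Helper32.HB.realsP M) (Pool.Agent.Helper32.HB.setsP M) := by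
  obtain ⟨⟨c, hc, hpi⟩, hbd, Ω, a, br, ht⟩ := hP
  obtain ⟨R₁, W₁, g, hch, hreq, hpt⟩ := exists_point (P := P) (TrW c a br) TrEs tr_ae
  refine ⟨g.M, g.countable_M, zfc_of_ch g hch, ?_⟩
  -- closure properties of the fragment
  have reN : ∀ τ ∈ g.N, nm (rl τ) ∈ g.N := by
    intro τ hτ
    obtain ⟨k, hk | hk⟩ := hreq .re [τ] (by simpa using hτ)
    · obtain ⟨x, hx, hx'⟩ := hk
      have e : x = nm (rl τ) := hx'
      rw [← e]
      exact hx
    · exact absurd rfl (hk _ le_rfl (nm (rl τ)))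
  have shN : ∀ s, ∀ τ ∈ g.N, nm (shV s (rl τ)) ∈ g.N := by
    intro s τ hτ
    obtain ⟨k, hk | hk⟩ := hreq (.sh s) [τ] (by simpa using hτ)
    · obtain ⟨x, hx, hx'⟩ := hk
      have e : x = nm (shV s (rl τ)) := hx'
      rw [← e]
      exact hx
    · exact absurd rfl (hk _ le_rfl (nm (shV s (rl τ))))
  have sqN : ∀ i, ∀ τ ∈ g.N, nm (h32_sq τ i) ∈ g.N := by
    intro i τ hτ
    obtain ⟨k, hk | hk⟩ := hreq (.sq i) [τ] (by simpa using hτ)
    · obtain ⟨x, hx, hx'⟩ := hk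
      have e : x = nm (h32_sq τ i) := hx'
      rw [← e]
      exact hx
    · exact absurd rfl (hk _ le_rfl (nm (h32_sq τ i)))
  have wtN : ∀ γ ∈ g.N, ∀ τ ∈ g.N, nm (witV γ (rl τ)) ∈ g.N := by
    intro γ hγ τ hτ
    obtain ⟨k, hk | hk⟩ := hreq .wt [γ, τ] (by simpa using ⟨hγ, hτ⟩)
    · obtain ⟨x, hx, hx'⟩ := hk
      have e : x = nm (witV γ (rl τ)) := hx'
      rw [← e]
      exact hx
    · exact absurd rfl (hk _ le_rfl (nm (witV γ (rl τ))))
  have hE : nE c ∈ g.N := by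
    obtain ⟨k, hk | hk⟩ := hreq .setE [] (by simp)
    · obtain ⟨x, hx, hx'⟩ := hk
      have e : x = nE c := hx'
      rw [← e]
      exact hx
    · exact absurd rfl (hk _ le_rfl (nE c))
  have hT : nT a br ∈ g.N := by
    obtain ⟨k, hk | hk⟩ := hreq .setT [] (by simp)
    · obtain ⟨x, hx, hx'⟩ := hk
      have e : x = nT a br := hx'
      rw [← e]
      exact hx
    · exact absurd rfl (hk _ le_rfl (nT a br))
  -- points
  have realN : ∀ x, nm x ∈ g.N → gv (pt g) x ∈ realsP g.M := by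
    intro x hx
    exact ⟨nm x, hx, val_nm g hx⟩
  have ofReal : ∀ y ∈ realsP g.M, ∃ τ ∈ g.N, nm (rl τ) ∈ g.N ∧ gv (pt g) (rl τ) = y := by
    intro y hy
    obtain ⟨τ, hτ, -, hτ2, -⟩ := exists_name_of_real g hy
    exact ⟨τ, hτ, reN τ hτ, funext fun n => propext (hτ2 n)⟩
  have rlnm : ∀ x : ℕ → RO P, rl (nm x) = x := rl_nm
  -- the sets `EM`, `TM'`
  let EM : Set (ℕ → Prop) := {x | ∃ β, nm (c β) ∈ g.N ∧ x = gv (pt g) (c β)}
  let TT : Set (ℕ → Prop) := {x | ∃ ω, nm (a ω) ∈ g.N ∧ Fr (pt g) (br ω) ∧ x = gv (pt g) (a ω)}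
  have hEM : EM ∈ setsP g.M := by
    refine ⟨nE c, hE, ?_⟩
    ext z
    rw [g.mem_val, ZFSet.mem_range]
    constructor
    · rintro ⟨β, hN, -, hz⟩
      have hN' : nm (c β) ∈ g.N := hN
      have hz' : g.val (nm (c β)) = z := hz
      rw [val_nm g hN'] at hz'
      exact ⟨⟨gv (pt g) (c β), β, hN', rfl⟩, hz'⟩
    · rintro ⟨⟨x, β, hN, rfl⟩, hz⟩
      refine ⟨β, hN, ⟨0, le_top⟩, ?_⟩
      change g.val (nm (c β)) = z
      rw [val_nm g hN]
      exact hz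
  have hTT : TT ∈ setsP g.M := by
    refine ⟨nT a br, hT, ?_⟩
    ext z
    rw [g.mem_val, ZFSet.mem_range]
    constructor
    · rintro ⟨⟨⟨ω, r⟩, hr⟩, hN, ⟨k, hk⟩, hz⟩
      have hN' : nm (a ω) ∈ g.N := hN
      have hz' : g.val (nm (a ω)) = z := hz
      rw [val_nm g hN'] at hz'
      exact ⟨⟨gv (pt g) (a ω), ω, hN', (fr_pt g).2 ⟨k, RO.mem_lower hk hr⟩, rfl⟩, hz'⟩
    · rintro ⟨⟨x, ω, hN, hb, rfl⟩, hz⟩
      obtain ⟨k, hk⟩ := (fr_pt g).1 hb
      refine ⟨⟨(ω, g.pc k), hk⟩, hN, ⟨k, le_rfl⟩, ?_⟩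
      change g.val (nm (a ω)) = z
      rw [val_nm g hN]
      exact hz
  -- the events, for names `nm x` of the fragment
  have evLs : ∀ x y, nm x ∈ g.N → nm y ∈ g.N →
      (Fr (pt g) (lsV x y) ↔ LeStar (gv (pt g) x) (gv (pt g) y)) := by
    intro x y hx hy
    have h : Fr (pt g) (lsV (rl (nm x)) (rl (nm y))) ↔
        LeStar (gv (pt g) (rl (nm x))) (gv (pt g) (rl (nm y))) :=
      hpt .ls [nm x, nm y] (by simpa using ⟨hx, hy⟩)
    rwa [rl_nm, rl_nm] at h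
  have frTop : ∀ {U : RO P}, U = ⊤ → Fr (pt g) U := by
    rintro U rfl
    exact fr_top _
  -- the order of the scale
  have lsMono : ∀ β γ, nm (c β) ∈ g.N → nm (c γ) ∈ g.N → β ≤ γ →
      LeStar (gv (pt g) (c β)) (gv (pt g) (c γ)) := by
    intro β γ hβ hγ h
    rcases h.lt_or_eq with h | rfl
    · exact (evLs _ _ hβ hγ).1 (frTop (hc.mono β γ h))
    · exact ⟨0, fun n _ k hk => hk⟩
  have lsStrict : ∀ β γ, nm (c β) ∈ g.N → nm (c γ) ∈ g.N → β < γ →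
      ¬ LeStar (gv (pt g) (c γ)) (gv (pt g) (c β)) := by
    intro β γ hβ hγ h h1
    have h2 := (evLs _ _ hγ hβ).2 h1
    rw [hc.strict β γ h] at h2
    exact tr_not_bot _ h2
  -- sets
  have witEq : ∀ γ ∈ g.N, ∀ C : Set (ℕ → Prop), (∀ z, realP z ∈ g.val γ ↔ z ∈ C) →
      ∀ x, nm x ∈ g.N → nm (witV γ x) ∈ g.N ∧
        gv (pt g) (witV γ x) = wit C (gv (pt g) x) := by
    intro γ hγ C hC x hx
    have h1 := wtN γ hγ (nm x) hx
    rw [rl_nm] at h1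
    refine ⟨h1, funext fun n => propext ?_⟩
    have h2 := shN n (nm x) hx
    rw [rl_nm] at h2
    have h3 : Fr (pt g) (SE γ (shV n x)) ↔ realP (fun i => Fr (pt g) (shV n x i)) ∈ g.val γ := by
      rw [← val_nm g h2, ← g.mem_iff h2 hγ, fr_pt g]
      rfl
    have e : (fun i => Fr (pt g) (shV n x i)) = sh n (gv (pt g) x) :=
      funext fun i => propext (h32_fr_shV _ _ i)
    change Fr (pt g) (SE γ (shV n x)) ↔ sh n (gv (pt g) x) ∈ C
    rw [h3, e, hC]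
  have ofSet : ∀ C ∈ setsP g.M, ∃ γ ∈ g.N, ∀ z, realP z ∈ g.val γ ↔ z ∈ C := by
    rintro C ⟨γ, hγ, hγC⟩
    refine ⟨γ, hγ, fun z => ?_⟩
    rw [hγC, ZFSet.mem_range]
    constructor
    · rintro ⟨x, hx⟩
      have h1 : x.1 = z := realP_inj hx
      rw [← h1]
      exact x.2
    · intro hz
      exact ⟨⟨z, hz⟩, rfl⟩
  refine ⟨⟨EM, hEM, ?_, ?_, ?_, ?_, ?_, ?_, ?_, ?_, ?_⟩, ⟨TT, hTT, ?_, ?_, ?_, ?_, ?_⟩⟩
  · -- subset
    rintro x ⟨β, hβ, rfl⟩
    exact realN _ hβ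
  · -- increasing
    rintro x ⟨β, hβ, rfl⟩
    have h : Fr (pt g) (incV (rl (nm (c β)))) ↔ Inc (gv (pt g) (rl (nm (c β)))) :=
      hpt .inc [nm (c β)] (by simpa using hβ)
    rw [rl_nm] at h
    exact h.1 (frTop (hc.inc β))
  · -- linear
    rintro x ⟨β, hβ, rfl⟩ y ⟨γ, hγ, rfl⟩
    rcases le_total β γ with h | h
    · exact Or.inl (lsMono β γ hβ hγ h)
    · exact Or.inr (lsMono γ β hγ hβ h)
  · -- antisymmetric
    rintro x ⟨β, hβ, rfl⟩ y ⟨γ, hγ, rfl⟩ h1 h2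
    rcases lt_trichotomy β γ with h | rfl | h
    · exact absurd h2 (lsStrict β γ hβ hγ h)
    · rfl
    · exact absurd h1 (lsStrict γ β hγ hβ h)
  · -- well-founded
    intro r _ hr
    choose β hβ hβr using hr
    by_contra hcon
    push Not at hcon
    have hlt : ∀ i, β (i + 1) < β i := by
      intro i
      by_contra hle
      have h1 := lsMono _ _ (hβ i) (hβ (i + 1)) (not_lt.1 hle)
      rw [← hβr i, ← hβr (i + 1)] at h1
      exact hcon i h1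
    exact (RelEmbedding.natGT β hlt).not_wellFounded wellFounded_lt
  · -- small initial segments
    rintro C hC x ⟨β₀, hβ₀, rfl⟩
    obtain ⟨γ, hγ, hγC⟩ := ofSet C hC
    obtain ⟨k, hk⟩ := hreq .bdE [γ, nm (c β₀)] (by simpa using ⟨hγ, hβ₀⟩)
    have hex : ∃ x ∈ g.N, ∃ β, nm (c β₀) = nm (c β) ∧ ∃ G, x = nm G ∧ ∀ δ, δ < β →
        lsV (witV γ (c δ)) G = ⊤ := by
      rcases hk with hk | hk
      · exact hk
      · exfalso
        obtain ⟨G, hG⟩ := hbd (Shrink.{0} (Set.Iio β₀))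
          fun i => witV γ (c ((equivShrink _).symm i).1)
        refine hk _ le_rfl (nm G) ⟨β₀, rfl, G, rfl, fun δ hδ => ?_⟩
        have h1 : lsV (witV γ (c δ)) G = ⊤ := by
          have := hG (equivShrink _ ⟨δ, hδ⟩)
          simpa using this
        exact h1
    obtain ⟨x, hx, β, hβ, G, rfl, hG⟩ := hex
    refine ⟨gv (pt g) G, realN G hx, ?_⟩
    rintro y ⟨δ, hδ, rfl⟩ hy
    have hβN : nm (c β) ∈ g.N := by
      rw [← hβ]
      exact hβ₀
    have e : c β₀ = c β := by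
      rw [← rl_nm (c β₀), hβ, rl_nm]
    have hlt : δ < β := by
      by_contra hle
      apply hy
      rw [e]
      exact lsMono β δ hβN hδ (not_lt.1 hle)
    obtain ⟨h1, h2⟩ := witEq γ hγ C hγC (c δ) hδ
    rw [← h2]
    exact (evLs _ _ h1 hx).1 (frTop (hG δ hlt))
  · -- dominating
    intro y hy
    obtain ⟨τ, hτ, hτ', rfl⟩ := ofReal y hy
    obtain ⟨k, hk | hk⟩ := hreq .dom [τ] (by simpa using hτ)
    · obtain ⟨x, hx, β, rfl, h1⟩ := hk
      exact ⟨gv (pt g) (c β), ⟨β, hx, rfl⟩, (evLs _ _ hτ' hx).1 ((fr_pt g).2 ⟨k, h1⟩)⟩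
    · exfalso
      have h1 : g.pc k ∈ ⨆ β, lsV (rl τ) (c β) := by
        rw [hc.dom]
        exact RO.mem_top _
      obtain ⟨r, hr, β, hβ⟩ := RO.mem_iSup.1 h1 _ le_rfl
      exact hk r hr (nm (c β)) ⟨β, rfl, hβ⟩
  · -- large values at `0`
    rintro n x ⟨β₀, hβ₀, rfl⟩
    obtain ⟨k, hk | hk⟩ := hreq (.root n) [nm (c β₀)] (by simpa using hβ₀)
    · obtain ⟨x, hx, β, γ, h1, h2, rfl, h3⟩ := hk
      have h1' : nm (c β₀) = nm (c β) := h1
      have e : c β₀ = c β := by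
        rw [← rl_nm (c β₀), h1', rl_nm]
      have hβN : nm (c β) ∈ g.N := by
        rw [← h1']
        exact hβ₀
      refine ⟨gv (pt g) (c γ), ⟨γ, hx, rfl⟩, ?_, ?_⟩
      · rw [e]
        exact lsMono β γ hβN hx h2
      · intro h4
        have h : Fr (pt g) (decV (rl (nm (c γ))) 0 n) ↔ fnLe (gv (pt g) (rl (nm (c γ)))) 0 n :=
          hpt (.dec n) [nm (c γ)] (by simpa using hx)
        rw [rl_nm, h3] at h
        exact tr_not_bot _ (h.2 h4)
    · exfalso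
      obtain ⟨γ, h1, h2⟩ := hc.root β₀ n
      exact hk _ le_rfl (nm (c γ)) ⟨β₀, γ, rfl, h1, rfl, h2⟩
  · -- the pseudo-intersections
    rintro x ⟨β₀, hβ₀, rfl⟩ A hA t hacc
    obtain ⟨α, hα, hα', rfl⟩ := ofReal A hA
    have claim : ∀ β, nm (c β) = nm (c β₀) → ∃ k, g.pc k ∈ accV c β (rl α) t := by
      intro β hβ
      obtain ⟨k, hk | hk⟩ := hreq (.acc t) [nm (c β₀), α] (by simpa using ⟨hβ₀, hα⟩)
      · exfalso
        obtain ⟨x, hx, β', l, m, j, h1, h2, rfl, h3⟩ := hk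
        have h1' : nm (c β₀) = nm (c β') := h1
        have e : c β₀ = c β' := by
          rw [← rl_nm (c β₀), h1', rl_nm]
        have hβN : nm (c β') ∈ g.N := by
          rw [← h1']
          exact hβ₀
        have hl : ∀ i, nm (c (l i)) ∈ g.N := by
          intro i
          have h4 := sqN i _ hx
          rw [h32_sq_nm] at h4
          exact h4
        have hsec : ∀ i, sec (gv (pt g) (h32_cq fun i => c (l i))) i = gv (pt g) (c (l i)) := by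
          intro i
          funext n
          change Fr (pt g) (c (l (Nat.unpair (Nat.pair i n)).1) (Nat.unpair (Nat.pair i n)).2) = _
          rw [Nat.unpair_pair]
          rfl
        obtain ⟨n, hn1, hn2, hn3⟩ := hacc (gv (pt g) (h32_cq fun i => c (l i))) (realN _ hx)
          (fun i => ⟨l i, hl i, hsec i⟩) m j
        have hev : Fr (pt g) (accS (h32_sq (nm (h32_cq fun i => c (l i)))) m (rl α) t j) ↔
            ∃ n, gv (pt g) (rl α) n ∧ PN t j (nd n) ∧ ∀ i, i < m →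
              Ok t (gv (pt g) (h32_sq (nm (h32_cq fun i => c (l i))) i)) →
              Av t (gv (pt g) (h32_sq (nm (h32_cq fun i => c (l i))) i)) (nd n) :=
          hpt (.acc m t j) [nm (h32_cq fun i => c (l i)), α] (by simpa using ⟨hx, hα⟩)
        rw [h32_sq_nm] at hev
        refine Ev1_fr_compl_not ((fr_pt g).2 ⟨k, h3⟩) (hev.2 ⟨n, hn1, hn2, fun i hi hok => ?_⟩)
        have h5 := hn3 i hi
        rw [hsec i, e] at h5
        exact h5 (lsStrict (l i) β' (hl i) hβN (h2 i hi)) hok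
      · refine ⟨k, ?_⟩
        unfold accV
        rw [RO.mem_iInf]
        intro l
        rw [RO.mem_iInf]
        intro m
        rw [RO.mem_iInf]
        intro hl
        rw [RO.mem_iInf]
        intro j
        by_contra hne
        obtain ⟨r, hr, hr'⟩ := h32_exists_compl hne
        exact hk r hr (nm (h32_cq fun i => c (l i))) ⟨β, l, m, j, hβ.symm, hl, rfl, hr'⟩
    have hex : ∃ k, ∃ x ∈ g.N, ∃ β Z, nm (c β₀) = nm (c β) ∧ x = nm Z ∧
        g.pc k ∈ piV c β (rl α) t Z := by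
      obtain ⟨k, hk | hk⟩ := hreq (.pi t) [nm (c β₀), α] (by simpa using ⟨hβ₀, hα⟩)
      · exact ⟨k, hk⟩
      · exfalso
        have h1 : g.pc k ∈ ⨆ Z : ℕ → RO P, piV c β₀ (rl α) t Z := by
          rw [hpi]
          exact RO.mem_top _
        obtain ⟨r, hr, Z, hZ⟩ := RO.mem_iSup.1 h1 _ le_rfl
        exact hk r hr (nm Z) ⟨β₀, Z, rfl, rfl, hZ⟩
    obtain ⟨k₁, x, hx, β, Z, hβ, rfl, hpiZ⟩ := hex
    obtain ⟨k₂, hk₂⟩ := claim β hβ.symm
    have e : c β₀ = c β := by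
      rw [← rl_nm (c β₀), hβ, rl_nm]
    have hβN : nm (c β) ∈ g.N := by
      rw [← hβ]
      exact hβ₀
    unfold piV at hpiZ
    rw [RO.mem_inf, RO.mem_himp] at hpiZ
    obtain ⟨hsub, hconv⟩ := hpiZ
    have hconv' : g.pc (k₁ + k₂) ∈ convV c β t Z :=
      hconv _ (g.pc_le (by omega)) (RO.mem_lower (g.pc_le (by omega)) hk₂)
    unfold convV at hconv'
    rw [RO.mem_inf, RO.mem_inf] at hconv'
    obtain ⟨⟨hinf, hpn⟩, hav⟩ := hconv'
    refine ⟨gv (pt g) Z, realN Z hx, ?_, ?_, ?_, ?_⟩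
    · intro hfin
      have hev : Fr (pt g) (finV (rl (nm Z))) ↔ Fin' (gv (pt g) (rl (nm Z))) :=
        hpt .fin [nm Z] (by simpa using hx)
      rw [rl_nm] at hev
      exact Ev1_fr_compl_not ((fr_pt g).2 ⟨_, hinf⟩) (hev.2 hfin)
    · have hev : Fr (pt g) (⨅ n : ℕ, rl (nm Z) n ⇨ rl α n) ↔
          ∀ n, gv (pt g) (rl (nm Z)) n → gv (pt g) (rl α) n :=
        hpt .sub [nm Z, α] (by simpa using ⟨hx, hα⟩)
      rw [rl_nm] at hev
      exact hev.1 ((fr_pt g).2 ⟨k₁, hsub⟩)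
    · intro j
      have hev : Fr (pt g) (finV fun n => ⨆ _ : ¬ PN t j (nd n), rl (nm Z) n) ↔
          Fin' fun n => gv (pt g) (rl (nm Z)) n ∧ ¬ PN t j (nd n) :=
        hpt (.pn t j) [nm Z] (by simpa using hx)
      rw [rl_nm] at hev
      rw [RO.mem_iInf] at hpn
      exact hev.1 ((fr_pt g).2 ⟨_, hpn j⟩)
    · rintro y ⟨δ, hδ, rfl⟩ hy hok
      have hlt : δ < β := by
        by_contra hle
        apply hy
        rw [e]
        exact lsMono β δ hβN hδ (not_lt.1 hle)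
      have hev1 : Fr (pt g) (okV t (rl (nm (c δ)))) ↔ Ok t (gv (pt g) (rl (nm (c δ)))) :=
        hpt (.ok t) [nm (c δ)] (by simpa using hδ)
      rw [rl_nm] at hev1
      have hev2 : Fr (pt g) (finV fun n => rl (nm Z) n ⊓ (avV t (rl (nm (c δ))) (nd n))ᶜ) ↔
          Fin' fun n => gv (pt g) (rl (nm Z)) n ∧ ¬ Av t (gv (pt g) (rl (nm (c δ)))) (nd n) :=
        hpt (.av t) [nm Z, nm (c δ)] (by simpa using ⟨hx, hδ⟩)
      rw [rl_nm, rl_nm] at hev2
      apply hev2.1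
      obtain ⟨k₃, hk₃⟩ := (fr_pt g).1 (hev1.2 hok)
      rw [RO.mem_iInf] at hav
      have h1 := hav δ
      rw [RO.mem_iInf] at h1
      have h2 := h1 hlt
      rw [RO.mem_himp] at h2
      exact (fr_pt g).2 ⟨k₁ + k₂ + k₃, h2 _ (g.pc_le (by omega))
        (RO.mem_lower (g.pc_le (by omega)) hk₃)⟩
  · -- subset
    rintro x ⟨ω, hω, -, rfl⟩
    exact realN _ hω
  · -- infinite
    rintro x ⟨ω, hω, -, rfl⟩ hfin
    have hev : Fr (pt g) (finV (rl (nm (a ω)))) ↔ Fin' (gv (pt g) (rl (nm (a ω)))) :=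
      hpt .fin [nm (a ω)] (by simpa using hω)
    rw [rl_nm, ht.inf ω] at hev
    exact tr_not_bot _ (hev.2 hfin)
  · -- chain
    rintro x ⟨ω, hω, hb, rfl⟩ y ⟨ω', hω', hb', rfl⟩
    have h : Fr (pt g) (finV (rl (nm (a ω)) ⊓ (rl (nm (a ω')))ᶜ) ⊔
        finV (rl (nm (a ω')) ⊓ (rl (nm (a ω)))ᶜ)) ↔
        (Fin' fun n => gv (pt g) (rl (nm (a ω))) n ∧ ¬ gv (pt g) (rl (nm (a ω'))) n) ∨
          Fin' fun n => gv (pt g) (rl (nm (a ω'))) n ∧ ¬ gv (pt g) (rl (nm (a ω))) n :=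
      hpt .ch [nm (a ω), nm (a ω')] (by simpa using ⟨hω, hω'⟩)
    rw [rl_nm, rl_nm] at h
    exact h.1 (fr_mono (ht.chain ω ω') (fr_inf.2 ⟨hb, hb'⟩))
  · -- no pseudo-intersection
    intro Z hZ hinf
    obtain ⟨τ, hτ, hτ', rfl⟩ := ofReal Z hZ
    obtain ⟨k, hk | hk⟩ := hreq .mx [τ] (by simpa using hτ)
    · obtain ⟨x, hx, ω, rfl, h1⟩ := hk
      have h1' : g.pc k ∈ br ω ⊓ (finV (rl τ ⊓ (a ω)ᶜ))ᶜ := h1
      rw [RO.mem_inf] at h1'
      refine ⟨gv (pt g) (a ω), ⟨ω, hx, (fr_pt g).2 ⟨k, h1'.1⟩, rfl⟩, fun hfin => ?_⟩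
      have h : Fr (pt g) (finV (rl τ ⊓ (rl (nm (a ω)))ᶜ)) ↔
          Fin' fun n => gv (pt g) (rl τ) n ∧ ¬ gv (pt g) (rl (nm (a ω))) n :=
        hpt .diff [τ, nm (a ω)] (by simpa using ⟨hτ, hx⟩)
      rw [rl_nm] at h
      exact Ev1_fr_compl_not ((fr_pt g).2 ⟨k, h1'.2⟩) (h.2 hfin)
    · exfalso
      have h1 : g.pc k ∈ finV (rl τ) := by
        by_contra hne
        obtain ⟨q, hq, hq'⟩ := h32_exists_compl hne
        have h2 : q ∈ ⨆ x, br x ⊓ (finV (rl τ ⊓ (a x)ᶜ))ᶜ := by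
          have h3 := ht.max (rl τ)
          rw [RO.le_def] at h3
          exact h3 q hq'
        obtain ⟨r, hr, ω, hω⟩ := RO.mem_iSup.1 h2 _ le_rfl
        exact hk r (hr.trans hq) (nm (a ω)) ⟨ω, rfl, hω⟩
      have h : Fr (pt g) (finV (rl τ)) ↔ Fin' (gv (pt g) (rl τ)) :=
        hpt .fin [τ] (by simpa using hτ)
      exact hinf (h.1 ((fr_pt g).2 ⟨k, h1⟩))
  · -- small
    intro C hC
    obtain ⟨γ, hγ, hγC⟩ := ofSet C hC
    obtain ⟨k, hk | hk⟩ := hreq .bdT [γ] (by simpa using hγ)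
    · obtain ⟨x, hx, G, rfl, hG⟩ := hk
      refine ⟨gv (pt g) G, realN G hx, ?_⟩
      rintro y ⟨ω, hω, -, rfl⟩
      obtain ⟨h1, h2⟩ := witEq γ hγ C hγC (a ω) hω
      rw [← h2]
      exact (evLs _ _ h1 hx).1 (frTop (hG ω))
    · exfalso
      obtain ⟨G, hG⟩ := hbd Ω fun ω => witV γ (a ω)
      exact hk _ le_rfl (nm G) ⟨G, rfl, hG⟩

end Main

end Pool.Agent.Helper32.FR
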