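import Pool.Agent.Helper32.FR.Sent
import Pool.Agent.Helper50.Dow.Ground

/-! # Project FR: the ZFC part, statements of the modules (stubs) -/

set_option autoImplicit false

namespace Pool.Agent.Helper32.FR

open Set
open Pool.Agent.Results.MP_743798_lc.NonFrechetBelowB (Node bnum pnum IsBScale U dow I)

/-- The scale `φ` consists of strictly increasing functions, is dominating, and has the relative
pseudo-intersection property. -/
structure PScale (φ : I → ℕ → ℕ) : Prop where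
  mono : ∀ x, StrictMono (φ x)
  le_iff : ∀ x y, x ≤ y ↔ {k | ¬ φ x k ≤ φ y k}.Finite
  dom : ∀ g : ℕ → ℕ, ∃ x, {k | ¬ g k ≤ φ x k}.Finite
  root : ∀ (n : ℕ) (x : I), ∃ y, x ≤ y ∧ n < φ y 0
  pi : ∀ (γ : I) (A : Set Node) (t : Node),
    (∀ F : Finset I, (∀ x ∈ F, x < γ) → ∀ K : ℕ, ∃ j v, K ≤ j ∧ t ++ j :: v ∈ A ∧
      ∀ x ∈ F, t ∈ U (fun s => φ x (wt s)) → t ++ j :: v ∈ U (fun s => φ x (wt s))) →
    ∃ Z : Set Node, Z.Infinite ∧ Z ⊆ A ∧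
      (∀ k : ℕ, {s ∈ Z | ¬ ∃ j v, k ≤ j ∧ s = t ++ j :: v}.Finite) ∧
      ∀ x, x < γ → t ∈ U (fun s => φ x (wt s)) → {s ∈ Z | s ∉ U (fun s => φ x (wt s))}.Finite

/-- FR-Z1 -/
theorem exists_pscale (h : SentA univ univ) : ∃ φ : I → ℕ → ℕ, PScale φ := sorry

/-- FR-Z2 -/
theorem frechet_of_pscale {φ : I → ℕ → ℕ} (h : PScale φ) :
    ∃ B : Set (Node → ℕ), IsBScale B ∧
      (∀ E : Set Node, E.Infinite → ∀ g : Node → ℕ, ∃ f ∈ B, ¬ {s ∈ E | ¬ f s ≤ g s}.Finite) ∧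
      @FrechetUrysohnSpace Node (dow B) := sorry

/-- FR-Z3 -/
theorem pnum_lt_bnum (h : SentB univ univ) : pnum < bnum := sorry

/-- The ZFC part. -/
theorem zfc_main (h : Sentence univ univ) :
    (∃ B : Set (Node → ℕ), IsBScale B ∧
      (∀ E : Set Node, E.Infinite → ∀ g : Node → ℕ, ∃ f ∈ B, ¬ {s ∈ E | ¬ f s ≤ g s}.Finite) ∧
      @FrechetUrysohnSpace Node (dow B)) ∧
    ∃ B : Set (Node → ℕ), IsBScale B ∧
      (∀ E : Set Node, E.Infinite → ∀ g : Node → ℕ, ∃ f ∈ B, ¬ {s ∈ E | ¬ f s ≤ g s}.Finite) ∧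
      ¬ @FrechetUrysohnSpace Node (dow B) := by
  obtain ⟨φ, hφ⟩ := exists_pscale h.1
  exact ⟨frechet_of_pscale hφ,
    Pool.Agent.Results.MP_743798_lc.NonFrechetBelowB.result (pnum_lt_bnum h.2)⟩

end Pool.Agent.Helper32.FR
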